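import Pool.Agent.Helper44.TOL.PSum

/-! TOL: the cosine and sine transforms of a test function, and the mean square over the primes. -/

set_option autoImplicit false
open MeasureTheory Set Filter Topology
open Pool.Agent.Helper57.TX (QX)
open scoped SchwartzMap FourierTransform ContDiff

namespace Pool.Agent.Helper44.TOL

theorem decay (h : 𝓢(ℝ, ℂ)) : ∃ N : ℝ, 0 ≤ N ∧ ∀ v : ℝ, 0 ≤ v → ‖h (v / (2 * Real.pi))‖ ≤ N / (1 + v) ^ 3 := by
  obtain ⟨C0, hC0, h0⟩ := h.decay 0 0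
  obtain ⟨C3, hC3, h3⟩ := h.decay 3 0
  have hpi := Real.pi_pos
  refine ⟨4 * (C0 + (2 * Real.pi) ^ 3 * C3), by positivity, fun v hv => ?_⟩
  have e0 := h0 (v / (2 * Real.pi))
  have e3 := h3 (v / (2 * Real.pi))
  rw [norm_iteratedFDeriv_zero] at e0 e3
  rw [pow_zero, one_mul] at e0
  rw [Real.norm_eq_abs, abs_of_nonneg (by positivity), div_pow, div_mul_eq_mul_div, div_le_iff₀ (by positivity)] at e3
  rw [le_div_iff₀ (by positivity)]
  have e4 : (1 + v) ^ 3 ≤ 4 * (1 + v ^ 3) := by nlinarith [mul_nonneg (sq_nonneg (v - 1)) (by linarith : 0 ≤ v + 1)]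
  calc ‖h (v / (2 * Real.pi))‖ * (1 + v) ^ 3 ≤ ‖h (v / (2 * Real.pi))‖ * (4 * (1 + v ^ 3)) :=
        mul_le_mul_of_nonneg_left e4 (norm_nonneg _)
    _ = 4 * (‖h (v / (2 * Real.pi))‖ + v ^ 3 * ‖h (v / (2 * Real.pi))‖) := by ring
    _ ≤ 4 * (C0 + (2 * Real.pi) ^ 3 * C3) := by linarith

variable {Psi : ℝ → ℝ}

/-- The test function as a Schwartz function. -/
noncomputable def fP (hP : ContDiff ℝ ∞ Psi) (hc : HasCompactSupport Psi) : 𝓢(ℝ, ℂ) :=
  HasCompactSupport.toSchwartzMap (f := fun x => (Psi x : ℂ)) (hc.comp_left (g := fun x : ℝ => (x : ℂ)) (by simp))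
    (Complex.ofRealCLM.contDiff.comp hP)

theorem fP_apply (hP : ContDiff ℝ ∞ Psi) (hc : HasCompactSupport Psi) (x : ℝ) : fP hP hc x = (Psi x : ℂ) := rfl

theorem comp_deriv (g : 𝓢(ℝ, ℂ)) (v : ℝ) :
    HasDerivAt (fun v : ℝ => g (v / (2 * Real.pi))) ((1 / (2 * Real.pi) : ℝ) • deriv g (v / (2 * Real.pi))) v := by
  have h1 : HasDerivAt (fun v : ℝ => v / (2 * Real.pi)) (1 / (2 * Real.pi)) v := (hasDerivAt_id v).div_const _
  exact (g.hasDerivAt (v / (2 * Real.pi))).scomp v h1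

theorem dec_of (g : 𝓢(ℝ, ℂ)) : ∃ N : ℝ, Dec N (fun v => (g (v / (2 * Real.pi))).re) (fun v => -(g (v / (2 * Real.pi))).im)
    (fun v => ((1 / (2 * Real.pi) : ℝ) • deriv g (v / (2 * Real.pi))).re) (fun v => -((1 / (2 * Real.pi) : ℝ) • deriv g (v / (2 * Real.pi))).im) := by
  have hpi := Real.pi_pos
  have hpi3 := Real.pi_gt_three
  obtain ⟨N1, hN1, h1⟩ := decay g
  obtain ⟨N2, hN2, h2⟩ := decay (SchwartzMap.derivCLM ℝ ℂ g)
  have hd : Continuous fun v : ℝ => (1 / (2 * Real.pi) : ℝ) • deriv g (v / (2 * Real.pi)) := by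
    have : Continuous (deriv g) := (SchwartzMap.derivCLM ℝ ℂ g).continuous
    exact (this.comp (continuous_id.div_const (2 * Real.pi))).const_smul (1 / (2 * Real.pi) : ℝ)
  have b1 : ∀ v, 0 ≤ v → ‖g (v / (2 * Real.pi))‖ ≤ (N1 + N2) / (1 + v) ^ 3 := fun v hv =>
    (h1 v hv).trans (by gcongr; linarith)
  have b2 : ∀ v, 0 ≤ v → ‖(1 / (2 * Real.pi) : ℝ) • deriv g (v / (2 * Real.pi))‖ ≤ (N1 + N2) / (1 + v) ^ 3 := fun v hv => by
    have e := h2 v hv
    rw [SchwartzMap.derivCLM_apply] at e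
    rw [norm_smul, Real.norm_eq_abs, abs_of_pos (by positivity)]
    have e1 : 1 / (2 * Real.pi) ≤ 1 := by rw [div_le_one (by positivity)]; linarith
    calc 1 / (2 * Real.pi) * ‖deriv g (v / (2 * Real.pi))‖ ≤ 1 * (N2 / (1 + v) ^ 3) :=
          mul_le_mul e1 e (norm_nonneg _) (by norm_num)
      _ ≤ (N1 + N2) / (1 + v) ^ 3 := by rw [one_mul]; gcongr; linarith
  refine ⟨N1 + N2, ?_, ?_, ?_, ?_, ?_, ?_, ?_, ?_⟩
  · intro v _
    exact Complex.reCLM.hasFDerivAt.comp_hasDerivAt v (comp_deriv g v)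
  · intro v _
    exact (Complex.imCLM.hasFDerivAt.comp_hasDerivAt v (comp_deriv g v)).neg
  · exact Complex.continuous_re.comp hd
  · exact (Complex.continuous_im.comp hd).neg
  · exact fun v hv => (Complex.abs_re_le_norm _).trans (b1 v hv)
  · exact fun v hv => by rw [abs_neg]; exact (Complex.abs_im_le_norm _).trans (b1 v hv)
  · exact fun v hv => (Complex.abs_re_le_norm _).trans (b2 v hv)
  · exact fun v hv => by rw [abs_neg]; exact (Complex.abs_im_le_norm _).trans (b2 v hv)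

theorem four_neg (hP : ContDiff ℝ ∞ Psi) (hc : HasCompactSupport Psi) (w : ℝ) :
    (𝓕 (fP hP hc)) (-w) = (starRingEnd ℂ) ((𝓕 (fP hP hc)) w) := by
  rw [SchwartzMap.fourier_coe, Real.fourier_real_eq_integral_exp_smul, Real.fourier_real_eq_integral_exp_smul, ← integral_conj]
  congr 1
  funext v
  rw [fP_apply, smul_eq_mul, smul_eq_mul, map_mul, Complex.conj_ofReal, ← Complex.exp_conj]
  congr 2
  rw [map_mul, Complex.conj_I, Complex.conj_ofReal]
  push_cast
  ring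

theorem inv_eq (hP : ContDiff ℝ ∞ Psi) (hc : HasCompactSupport Psi) (y : ℝ) :
    ∫ v in Ioi (0:ℝ), Ph (fun v => ((𝓕 (fP hP hc)) (v / (2 * Real.pi))).re) (fun v => -((𝓕 (fP hP hc)) (v / (2 * Real.pi))).im) y v =
      Real.pi * Psi y := by
  have hpi := Real.pi_pos
  set g := 𝓕 (fP hP hc) with hg
  set Q : ℝ → ℝ := fun ξ => (g ξ).re * Real.cos (2 * Real.pi * ξ * y) - (g ξ).im * Real.sin (2 * Real.pi * ξ * y) with hQ
  have h1 : (Psi y : ℂ) = ∫ ξ : ℝ, Complex.exp ((2 * Real.pi * (ξ * y) : ℝ) * Complex.I) • g ξ := by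
    have h2 : 𝓕⁻ (𝓕 (fP hP hc)) = fP hP hc := FourierTransform.fourierInv_fourier_eq _
    have h3 : (𝓕⁻ (𝓕 (fP hP hc))) y = (Psi y : ℂ) := by rw [h2]; rfl
    rw [← h3, SchwartzMap.fourierInv_coe, Real.fourierInv_eq']
    congr 1
    funext ξ
    congr 4
    simp [mul_comm]
  have h4 : ∀ ξ : ℝ, (Complex.exp ((2 * Real.pi * (ξ * y) : ℝ) * Complex.I) • g ξ).re = Q ξ := by
    intro ξ
    rw [smul_eq_mul, Complex.exp_mul_I, ← Complex.ofReal_cos, ← Complex.ofReal_sin, Complex.mul_re]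
    simp only [Complex.add_re, Complex.ofReal_re, Complex.mul_re, Complex.I_re, mul_zero, Complex.ofReal_im, Complex.I_im,
      mul_one, sub_self, add_zero, Complex.add_im, Complex.mul_im, zero_add, hQ]
    rw [← mul_assoc]
    ring
  have hint : Integrable fun ξ : ℝ => Complex.exp ((2 * Real.pi * (ξ * y) : ℝ) * Complex.I) • g ξ := by
    refine g.integrable.norm.mono' ?_ ?_
    · have hce : Continuous fun ξ : ℝ => Complex.exp ((2 * Real.pi * (ξ * y) : ℝ) * Complex.I) := by fun_prop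
      exact (hce.smul g.continuous).aestronglyMeasurable
    · filter_upwards [] with ξ
      rw [norm_smul, Complex.norm_exp_ofReal_mul_I, one_mul]
  have h5 : Psi y = ∫ ξ : ℝ, Q ξ := by
    have h6 := congrArg Complex.re h1
    rw [Complex.ofReal_re] at h6
    rw [h6]
    have h7 := integral_re hint
    simp only [RCLike.re_to_complex] at h7
    rw [← h7]
    exact integral_congr_ae (Eventually.of_forall h4)
  have h8 : ∀ ξ, Q ξ = Q |ξ| := by
    intro ξ
    rcases abs_choice ξ with h | h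
    · rw [h]
    · rw [h]
      simp only [hQ]
      rw [hg, four_neg hP hc ξ, Complex.conj_re, Complex.conj_im,
        show 2 * Real.pi * -ξ * y = -(2 * Real.pi * ξ * y) by ring, Real.cos_neg, Real.sin_neg]
      ring
  have h9 : Psi y = 2 * ∫ ξ in Ioi (0:ℝ), Q ξ := by
    rw [h5, ← integral_comp_abs]
    exact integral_congr_ae (Eventually.of_forall h8)
  have h10 : ∫ ξ in Ioi (0:ℝ), Q ξ = (2 * Real.pi)⁻¹ * ∫ v in Ioi (0:ℝ), Ph (fun v => (g (v / (2 * Real.pi))).re)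
      (fun v => -(g (v / (2 * Real.pi))).im) y v := by
    have h11 := integral_comp_mul_left_Ioi (fun v => Ph (fun v => (g (v / (2 * Real.pi))).re)
      (fun v => -(g (v / (2 * Real.pi))).im) y v) 0 (by positivity : 0 < 2 * Real.pi)
    rw [mul_zero, smul_eq_mul] at h11
    rw [← h11]
    refine integral_congr_ae (Eventually.of_forall fun ξ => ?_)
    simp only [Ph, hQ]
    rw [mul_div_cancel_left₀ _ (by positivity : 2 * Real.pi ≠ 0)]
    ring
  rw [h10] at h9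
  rw [h9]
  field_simp

theorem exists_dec (hP : ContDiff ℝ ∞ Psi) (hc : HasCompactSupport Psi) : ∃ (N : ℝ) (A B A' B' : ℝ → ℝ), Dec N A B A' B' ∧
    ∀ y, ∫ v in Ioi (0:ℝ), Ph A B y v = Real.pi * Psi y := by
  obtain ⟨N, hN⟩ := dec_of (𝓕 (fP hP hc))
  exact ⟨N, _, _, _, _, hN, inv_eq hP hc⟩

end Pool.Agent.Helper44.TOL
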