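import Pool.Agent.Helper7.UV.Mert
import Pool.Agent.Helper62.OP.Defs

/-! TOL: sums over primes against a rapidly decreasing weight. -/

set_option autoImplicit false
open MeasureTheory Set Filter Topology
open Pool.Agent.Helper57.TX (QX)

namespace Pool.Agent.Helper44.TOL

/-- The kernel. -/
noncomputable def kk (ρ t : ℝ) : ℝ := ρ / (1 + ρ * t) ^ 2

theorem kk_nonneg {ρ t : ℝ} (hρ : 0 < ρ) : 0 ≤ kk ρ t := by unfold kk; positivity

theorem kk_deriv {ρ t : ℝ} (hρ : 0 < ρ) (ht : 0 ≤ t) : HasDerivAt (fun t : ℝ => -(1 + ρ * t)⁻¹) (kk ρ t) t := by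
  have h0 : 1 + ρ * t ≠ 0 := by positivity
  have h1 : HasDerivAt (fun t : ℝ => 1 + ρ * t) ρ t := by
    simpa using ((hasDerivAt_id t).const_mul ρ).const_add 1
  refine (h1.inv h0).neg.congr_deriv ?_
  unfold kk
  ring

theorem kk_cont {ρ a b : ℝ} (hρ : 0 < ρ) (ha : 0 ≤ a) : ContinuousOn (kk ρ) (Icc a b) := by
  unfold kk
  refine ContinuousOn.div continuousOn_const (by fun_prop) fun t ht => ?_
  have : 0 ≤ t := ha.trans ht.1
  positivity

theorem kk_int {ρ X : ℝ} (hρ : 0 < ρ) (hX : 0 ≤ X) : ∫ t in (0:ℝ)..X, kk ρ t ≤ 1 := by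
  rw [intervalIntegral.integral_eq_sub_of_hasDerivAt (f := fun t : ℝ => -(1 + ρ * t)⁻¹)]
  · have : 0 ≤ (1 + ρ * X)⁻¹ := by positivity
    simp only [mul_zero, add_zero, inv_one]
    linarith
  · intro t ht
    rw [uIcc_of_le hX] at ht
    exact kk_deriv hρ ht.1
  · exact ((kk_cont hρ le_rfl).mono (by rw [uIcc_of_le hX])).intervalIntegrable

theorem kk_tail {ρ X : ℝ} (hρ : 0 < ρ) (hX : 0 ≤ X) :
    IntegrableOn (kk ρ) (Ioi X) ∧ ∫ t in Ioi X, kk ρ t = (1 + ρ * X)⁻¹ := by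
  have hd : ∀ t ∈ Ici X, HasDerivAt (fun t : ℝ => -(1 + ρ * t)⁻¹) (kk ρ t) t :=
    fun t ht => kk_deriv hρ (hX.trans ht)
  have hn : ∀ t ∈ Ioi X, 0 ≤ kk ρ t := fun t _ => kk_nonneg hρ
  have hl : Tendsto (fun t : ℝ => -(1 + ρ * t)⁻¹) atTop (𝓝 0) := by
    have h1 : Tendsto (fun t : ℝ => 1 + ρ * t) atTop atTop :=
      tendsto_atTop_add_const_left _ _ (tendsto_id.const_mul_atTop hρ)
    simpa using (tendsto_inv_atTop_zero.comp h1).neg
  refine ⟨integrableOn_Ioi_deriv_of_nonneg' hd hn hl, ?_⟩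
  rw [integral_Ioi_of_hasDerivAt_of_nonneg' hd hn hl]
  ring

/-- A pair of rapidly decreasing functions with their derivatives. -/
structure Dec (N : ℝ) (A B A' B' : ℝ → ℝ) : Prop where
  hA : ∀ v, 0 ≤ v → HasDerivAt A (A' v) v
  hB : ∀ v, 0 ≤ v → HasDerivAt B (B' v) v
  cA : Continuous A'
  cB : Continuous B'
  bA : ∀ v, 0 ≤ v → |A v| ≤ N / (1 + v) ^ 3
  bB : ∀ v, 0 ≤ v → |B v| ≤ N / (1 + v) ^ 3
  bA' : ∀ v, 0 ≤ v → |A' v| ≤ N / (1 + v) ^ 3
  bB' : ∀ v, 0 ≤ v → |B' v| ≤ N / (1 + v) ^ 3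

/-- The function under the sum. -/
noncomputable def Ph (A B : ℝ → ℝ) (y v : ℝ) : ℝ := A v * Real.cos (v * y) + B v * Real.sin (v * y)

noncomputable def Ph' (A B A' B' : ℝ → ℝ) (y v : ℝ) : ℝ :=
  (A' v * Real.cos (v * y) - A v * (Real.sin (v * y) * y)) + (B' v * Real.sin (v * y) + B v * (Real.cos (v * y) * y))

variable {N : ℝ} {A B A' B' : ℝ → ℝ}

theorem Dec.N_nonneg (D : Dec N A B A' B') : 0 ≤ N := by
  have h := (abs_nonneg (A 0)).trans (D.bA 0 le_rfl)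
  simpa using h

theorem Ph_deriv (D : Dec N A B A' B') (y : ℝ) {v : ℝ} (hv : 0 ≤ v) : HasDerivAt (Ph A B y) (Ph' A B A' B' y v) v := by
  have h1 : HasDerivAt (fun v : ℝ => v * y) y v := by simpa using (hasDerivAt_id v).mul_const y
  have h2 := (D.hA v hv).mul h1.cos
  have h3 := (D.hB v hv).mul h1.sin
  refine (h2.add h3).congr_deriv ?_
  unfold Ph'
  ring

theorem Ph_le (D : Dec N A B A' B') (y : ℝ) {v : ℝ} (hv : 0 ≤ v) : |Ph A B y v| ≤ 2 * N / (1 + v) ^ 3 := by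
  unfold Ph
  have h1 : |A v * Real.cos (v * y)| ≤ N / (1 + v) ^ 3 := by
    rw [abs_mul]
    have := mul_le_mul (D.bA v hv) (Real.abs_cos_le_one (v * y)) (abs_nonneg _) (by have := D.N_nonneg; positivity)
    simpa using this
  have h2 : |B v * Real.sin (v * y)| ≤ N / (1 + v) ^ 3 := by
    rw [abs_mul]
    have := mul_le_mul (D.bB v hv) (Real.abs_sin_le_one (v * y)) (abs_nonneg _) (by have := D.N_nonneg; positivity)
    simpa using this
  calc _ ≤ |A v * Real.cos (v * y)| + |B v * Real.sin (v * y)| := abs_add_le _ _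
    _ ≤ N / (1 + v) ^ 3 + N / (1 + v) ^ 3 := add_le_add h1 h2
    _ = 2 * N / (1 + v) ^ 3 := by ring

theorem Ph'_le (D : Dec N A B A' B') (y : ℝ) {v : ℝ} (hv : 0 ≤ v) :
    |Ph' A B A' B' y v| ≤ 2 * N * (1 + |y|) / (1 + v) ^ 3 := by
  have hN := D.N_nonneg
  have key : ∀ a c z : ℝ, |a| ≤ N / (1 + v) ^ 3 → |c| ≤ 1 → |a * (c * z)| ≤ N / (1 + v) ^ 3 * |z| := by
    intro a c z ha hc
    rw [abs_mul, abs_mul]
    have h1 : |c| * |z| ≤ 1 * |z| := mul_le_mul_of_nonneg_right hc (abs_nonneg z)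
    rw [one_mul] at h1
    exact mul_le_mul ha h1 (by positivity) (by positivity)
  have h1 := key _ _ 1 (D.bA' v hv) (Real.abs_cos_le_one (v * y))
  have h2 := key _ _ y (D.bA v hv) (Real.abs_sin_le_one (v * y))
  have h3 := key _ _ 1 (D.bB' v hv) (Real.abs_sin_le_one (v * y))
  have h4 := key _ _ y (D.bB v hv) (Real.abs_cos_le_one (v * y))
  rw [mul_one, abs_one, mul_one] at h1 h3
  unfold Ph'
  calc _ ≤ |A' v * Real.cos (v * y) - A v * (Real.sin (v * y) * y)| + |B' v * Real.sin (v * y) + B v * (Real.cos (v * y) * y)| := abs_add_le _ _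
    _ ≤ (|A' v * Real.cos (v * y)| + |A v * (Real.sin (v * y) * y)|) + (|B' v * Real.sin (v * y)| + |B v * (Real.cos (v * y) * y)|) :=
        add_le_add (abs_sub _ _) (abs_add_le _ _)
    _ ≤ (N / (1 + v) ^ 3 + N / (1 + v) ^ 3 * |y|) + (N / (1 + v) ^ 3 + N / (1 + v) ^ 3 * |y|) := by gcongr
    _ = 2 * N * (1 + |y|) / (1 + v) ^ 3 := by ring

theorem Ph_contOn (D : Dec N A B A' B') (y : ℝ) : ContinuousOn (Ph A B y) (Ici 0) :=
  fun _ hv => (Ph_deriv D y hv).continuousAt.continuousWithinAt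

theorem Ph'_contOn (D : Dec N A B A' B') (y : ℝ) : ContinuousOn (Ph' A B A' B' y) (Ici 0) := by
  have hA : ContinuousOn A (Ici 0) := fun v hv => (D.hA v hv).continuousAt.continuousWithinAt
  have hB : ContinuousOn B (Ici 0) := fun v hv => (D.hB v hv).continuousAt.continuousWithinAt
  have h1 : Continuous fun v : ℝ => Real.cos (v * y) := by fun_prop
  have h2 : Continuous fun v : ℝ => Real.sin (v * y) := by fun_prop
  unfold Ph'
  exact ((D.cA.mul h1).continuousOn.sub (hA.mul (h2.mul continuous_const).continuousOn)).add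
    ((D.cB.mul h2).continuousOn.add (hB.mul (h1.mul continuous_const).continuousOn))

/-- `ρ / (1 + ρ t)^3 ≤ kk`, `t ρ^2/(1 + ρ t)^3 ≤ kk` -/
theorem cube_le {ρ t : ℝ} (hρ : 0 < ρ) (ht : 0 ≤ t) : ρ / (1 + ρ * t) ^ 3 ≤ kk ρ t ∧ ρ * (ρ * t) / (1 + ρ * t) ^ 3 ≤ kk ρ t := by
  have h0 : 0 ≤ ρ * t := by positivity
  unfold kk
  constructor
  · exact div_le_div_of_nonneg_left hρ.le (by positivity) (pow_le_pow_right₀ (by linarith) (by norm_num))
  · rw [div_le_div_iff₀ (by positivity) (by positivity)]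
    have : ρ * (ρ * t) * (1 + ρ * t) ^ 2 ≤ ρ * (1 + ρ * t) * (1 + ρ * t) ^ 2 := by gcongr; linarith
    calc _ ≤ ρ * (1 + ρ * t) * (1 + ρ * t) ^ 2 := this
      _ = _ := by ring

/-- The dilated function. -/
noncomputable def qf (A B : ℝ → ℝ) (y ρ t : ℝ) : ℝ := ρ * Ph A B y (ρ * t)

theorem qf_le (D : Dec N A B A' B') (y : ℝ) {ρ t : ℝ} (hρ : 0 < ρ) (ht : 0 ≤ t) :
    |qf A B y ρ t| ≤ 2 * N * kk ρ t ∧ ρ * (t * |qf A B y ρ t|) ≤ 2 * N * kk ρ t := by
  have h0 : 0 ≤ ρ * t := by positivity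
  have h1 := Ph_le D y h0
  have h2 := cube_le hρ ht
  have hN := D.N_nonneg
  have e : |qf A B y ρ t| ≤ 2 * N * (ρ / (1 + ρ * t) ^ 3) := by
    unfold qf
    rw [abs_mul, abs_of_pos hρ]
    calc ρ * |Ph A B y (ρ * t)| ≤ ρ * (2 * N / (1 + ρ * t) ^ 3) := mul_le_mul_of_nonneg_left h1 hρ.le
      _ = _ := by ring
  constructor
  · exact e.trans (mul_le_mul_of_nonneg_left h2.1 (by positivity))
  · calc ρ * (t * |qf A B y ρ t|) ≤ ρ * (t * (2 * N * (ρ / (1 + ρ * t) ^ 3))) := by gcongr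
      _ = 2 * N * (ρ * (ρ * t) / (1 + ρ * t) ^ 3) := by ring
      _ ≤ 2 * N * kk ρ t := mul_le_mul_of_nonneg_left h2.2 (by positivity)

theorem qf_contOn (D : Dec N A B A' B') (y : ℝ) {ρ : ℝ} (hρ : 0 < ρ) : ContinuousOn (qf A B y ρ) (Ici 0) := by
  unfold qf
  refine continuousOn_const.mul ((Ph_contOn D y).comp (by fun_prop) ?_)
  intro t ht
  have : 0 ≤ t := ht
  exact mem_Ici.2 (by positivity)

theorem qf_int (D : Dec N A B A' B') (y : ℝ) {ρ : ℝ} (hρ : 0 < ρ) : IntegrableOn (qf A B y ρ) (Ioi 0) := by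
  refine Integrable.mono' ((kk_tail hρ le_rfl).1.const_mul (2 * N))
    (((qf_contOn D y hρ).mono Ioi_subset_Ici_self).aestronglyMeasurable measurableSet_Ioi) ?_
  filter_upwards [ae_restrict_mem measurableSet_Ioi] with t ht
  exact (qf_le D y hρ (le_of_lt ht)).1

theorem Ph_int_eq (A B : ℝ → ℝ) (y : ℝ) {ρ : ℝ} (hρ : 0 < ρ) :
    ∫ v in Ioi (0:ℝ), Ph A B y v = ∫ t in Ioi (0:ℝ), qf A B y ρ t := by
  unfold qf
  rw [integral_const_mul, integral_comp_mul_left_Ioi (fun v => Ph A B y v) 0 hρ, mul_zero, smul_eq_mul, ← mul_assoc,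
    mul_inv_cancel₀ hρ.ne', one_mul]

/-- The weighted function. -/
noncomputable def HH (A B : ℝ → ℝ) (y ρ X t : ℝ) : ℝ := (1 - t / X) ^ 2 * qf A B y ρ t

noncomputable def HH' (A B A' B' : ℝ → ℝ) (y ρ X t : ℝ) : ℝ :=
  (2 * (1 - t / X) * -(1 / X)) * qf A B y ρ t + (1 - t / X) ^ 2 * (ρ * (Ph' A B A' B' y (ρ * t) * ρ))

theorem HH_deriv (D : Dec N A B A' B') (y : ℝ) {ρ X t : ℝ} (hρ : 0 < ρ) (ht : 0 ≤ t) :
    HasDerivAt (HH A B y ρ X) (HH' A B A' B' y ρ X t) t := by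
  have h0 : 0 ≤ ρ * t := by positivity
  have h1 : HasDerivAt (fun t : ℝ => ρ * t) ρ t := by simpa using (hasDerivAt_id t).const_mul ρ
  have h2 : HasDerivAt (qf A B y ρ) (ρ * (Ph' A B A' B' y (ρ * t) * ρ)) t :=
    ((Ph_deriv D y h0).comp t h1).const_mul ρ
  have h3 : HasDerivAt (fun t : ℝ => 1 - t / X) (-(1 / X)) t := by
    simpa using ((hasDerivAt_id t).div_const X).const_sub 1
  have h4 : HasDerivAt (fun t : ℝ => (1 - t / X) ^ 2) (2 * (1 - t / X) * -(1 / X)) t := by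
    refine (h3.fun_pow 2).congr_deriv ?_
    push_cast
    ring
  exact h4.mul h2

theorem HH'_contOn (D : Dec N A B A' B') (y : ℝ) {ρ X : ℝ} (hρ : 0 < ρ) : ContinuousOn (HH' A B A' B' y ρ X) (Icc 0 X) := by
  have h1 : ContinuousOn (qf A B y ρ) (Icc 0 X) := (qf_contOn D y hρ).mono Icc_subset_Ici_self
  have h2 : ContinuousOn (fun t : ℝ => Ph' A B A' B' y (ρ * t)) (Icc 0 X) := by
    refine (Ph'_contOn D y).comp (by fun_prop) ?_
    intro t ht
    have : 0 ≤ t := ht.1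
    exact mem_Ici.2 (by positivity)
  unfold HH'
  exact (ContinuousOn.mul (by fun_prop) h1).add (ContinuousOn.mul (by fun_prop) (continuousOn_const.mul (h2.mul continuousOn_const)))

theorem HH'_le (D : Dec N A B A' B') (y : ℝ) {ρ X t : ℝ} (hρ : 0 < ρ) (hX : 0 < X) (ht : 0 ≤ t) (htX : t ≤ X) :
    |HH' A B A' B' y ρ X t| ≤ (4 * N / X + 2 * N * ρ * (1 + |y|)) * kk ρ t := by
  have hN := D.N_nonneg
  have h0 : 0 ≤ ρ * t := by positivity
  have h1 : 0 ≤ 1 - t / X := by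
    have := (div_le_one hX).2 htX
    linarith
  have h2 : 1 - t / X ≤ 1 := by
    have : 0 ≤ t / X := by positivity
    linarith
  have h3 : |(2 * (1 - t / X) * -(1 / X)) * qf A B y ρ t| ≤ 2 / X * (2 * N * kk ρ t) := by
    rw [abs_mul]
    refine mul_le_mul ?_ (qf_le D y hρ ht).1 (abs_nonneg _) (by positivity)
    rw [abs_mul, abs_neg, abs_of_nonneg (by positivity : (0:ℝ) ≤ 2 * (1 - t / X)), abs_of_pos (by positivity : (0:ℝ) < 1 / X)]
    calc 2 * (1 - t / X) * (1 / X) ≤ 2 * 1 * (1 / X) := by gcongr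
      _ = 2 / X := by ring
  have h4 : |(1 - t / X) ^ 2 * (ρ * (Ph' A B A' B' y (ρ * t) * ρ))| ≤ 2 * N * ρ * (1 + |y|) * kk ρ t := by
    rw [abs_mul, abs_of_nonneg (sq_nonneg _), abs_mul, abs_mul, abs_of_pos hρ]
    have h5 := Ph'_le D y h0
    have h6 : (1 - t / X) ^ 2 ≤ 1 := by nlinarith
    have h7 := (cube_le hρ ht).1
    calc (1 - t / X) ^ 2 * (ρ * (|Ph' A B A' B' y (ρ * t)| * ρ)) ≤ 1 * (ρ * ((2 * N * (1 + |y|) / (1 + ρ * t) ^ 3) * ρ)) := by gcongr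
      _ = 2 * N * ρ * (1 + |y|) * (ρ / (1 + ρ * t) ^ 3) := by ring
      _ ≤ 2 * N * ρ * (1 + |y|) * kk ρ t := mul_le_mul_of_nonneg_left h7 (by positivity)
  unfold HH'
  calc _ ≤ |(2 * (1 - t / X) * -(1 / X)) * qf A B y ρ t| + |(1 - t / X) ^ 2 * (ρ * (Ph' A B A' B' y (ρ * t) * ρ))| := abs_add_le _ _
    _ ≤ 2 / X * (2 * N * kk ρ t) + 2 * N * ρ * (1 + |y|) * kk ρ t := add_le_add h3 h4
    _ = _ := by ring

/-- the sum over the primes -/
theorem psum : ∃ C : ℝ, 0 < C ∧ ∀ (N : ℝ) (A B A' B' : ℝ → ℝ), Dec N A B A' B' → ∀ ρ X y : ℝ, 0 < ρ → 0 < X →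
    |∑ p ∈ QX X, Real.log p / p * HH A B y ρ X (Real.log p) - ∫ v in Ioi (0:ℝ), Ph A B y v| ≤
      C * N * (ρ * (1 + |y|) + 1 / X + 1 / (ρ * X)) := by
  obtain ⟨E, hE, hps⟩ := Pool.Agent.Helper7.UV.prime_sum
  refine ⟨4 * E + 6, by positivity, fun N A B A' B' D ρ X y hρ hX => ?_⟩
  have hN := D.N_nonneg
  have h1 := hps 0 X le_rfl hX.le (QX X) (fun p => by
    rw [Pool.Agent.Helper57.TX.QX, Finset.mem_filter, Finset.mem_range, Nat.lt_add_one_iff]
    constructor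
    · rintro ⟨h2, h3⟩
      have h4 : (p : ℝ) ≤ Real.exp X := (Nat.le_floor_iff (Real.exp_pos _).le).1 h2
      refine ⟨h3, Real.log_pos (by exact_mod_cast h3.one_lt), ?_⟩
      have := Real.log_le_log (by exact_mod_cast h3.pos) h4
      rwa [Real.log_exp] at this
    · rintro ⟨h2, -, h4⟩
      refine ⟨(Nat.le_floor_iff (Real.exp_pos _).le).2 ?_, h2⟩
      rwa [← Real.log_le_iff_le_exp (by exact_mod_cast h2.pos)])
    (HH A B y ρ X) (HH' A B A' B' y ρ X) (fun u hu => HH_deriv D y hρ hu.1) (HH'_contOn D y hρ)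
  -- the error of the sum
  have h2 : HH A B y ρ X X = 0 := by
    unfold HH
    rw [div_self hX.ne']
    ring
  have h3 : ∫ u in (0:ℝ)..X, |HH' A B A' B' y ρ X u| ≤ 4 * N / X + 2 * N * ρ * (1 + |y|) := by
    have hc : ContinuousOn (kk ρ) (uIcc 0 X) := by rw [uIcc_of_le hX.le]; exact kk_cont hρ le_rfl
    have hc' : ContinuousOn (fun u => |HH' A B A' B' y ρ X u|) (uIcc 0 X) := by
      rw [uIcc_of_le hX.le]; exact (HH'_contOn D y hρ).abs
    calc ∫ u in (0:ℝ)..X, |HH' A B A' B' y ρ X u| ≤ ∫ u in (0:ℝ)..X, (4 * N / X + 2 * N * ρ * (1 + |y|)) * kk ρ u := by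
          refine intervalIntegral.integral_mono_on hX.le hc'.intervalIntegrable
            (hc.intervalIntegrable.const_mul _) fun u hu => HH'_le D y hρ hX hu.1 hu.2
      _ = (4 * N / X + 2 * N * ρ * (1 + |y|)) * ∫ u in (0:ℝ)..X, kk ρ u := intervalIntegral.integral_const_mul _ _
      _ ≤ (4 * N / X + 2 * N * ρ * (1 + |y|)) * 1 := mul_le_mul_of_nonneg_left (kk_int hρ hX.le) (by positivity)
      _ = _ := mul_one _
  -- the main term
  have hqi := qf_int D y hρ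
  have h4 : ∫ v in Ioi (0:ℝ), Ph A B y v = (∫ t in (0:ℝ)..X, qf A B y ρ t) + ∫ t in Ioi X, qf A B y ρ t := by
    rw [Ph_int_eq A B y hρ, intervalIntegral.integral_of_le hX.le, ← setIntegral_union (Ioc_disjoint_Ioi le_rfl) measurableSet_Ioi
      (hqi.mono_set Ioc_subset_Ioi_self) (hqi.mono_set (Ioi_subset_Ioi hX.le)), Ioc_union_Ioi_eq_Ioi hX.le]
  have h5 : |∫ t in Ioi X, qf A B y ρ t| ≤ 2 * N / (ρ * X) := by
    calc |∫ t in Ioi X, qf A B y ρ t| ≤ ∫ t in Ioi X, |qf A B y ρ t| := abs_integral_le_integral_abs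
      _ ≤ ∫ t in Ioi X, 2 * N * kk ρ t := by
          refine setIntegral_mono_on (hqi.mono_set (Ioi_subset_Ioi hX.le)).abs ((kk_tail hρ hX.le).1.const_mul _) measurableSet_Ioi ?_
          intro t ht
          exact (qf_le D y hρ (hX.le.trans (le_of_lt ht))).1
      _ = 2 * N * (1 + ρ * X)⁻¹ := by rw [integral_const_mul, (kk_tail hρ hX.le).2]
      _ ≤ 2 * N * (ρ * X)⁻¹ := by
          gcongr
          linarith
      _ = 2 * N / (ρ * X) := by rw [div_eq_mul_inv]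
  have hqc : ContinuousOn (qf A B y ρ) (uIcc 0 X) := by
    rw [uIcc_of_le hX.le]; exact (qf_contOn D y hρ).mono Icc_subset_Ici_self
  have hHc : ContinuousOn (HH A B y ρ X) (uIcc 0 X) := by
    unfold HH
    exact ContinuousOn.mul (by fun_prop) hqc
  have h6 : |(∫ u in (0:ℝ)..X, HH A B y ρ X u) - ∫ t in (0:ℝ)..X, qf A B y ρ t| ≤ 4 * N / (ρ * X) := by
    rw [← intervalIntegral.integral_sub hHc.intervalIntegrable hqc.intervalIntegrable]
    refine (intervalIntegral.abs_integral_le_integral_abs hX.le).trans ?_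
    have hc : ContinuousOn (kk ρ) (uIcc 0 X) := by rw [uIcc_of_le hX.le]; exact kk_cont hρ le_rfl
    calc ∫ u in (0:ℝ)..X, |HH A B y ρ X u - qf A B y ρ u| ≤ ∫ u in (0:ℝ)..X, 4 * N / (ρ * X) * kk ρ u := by
          refine intervalIntegral.integral_mono_on hX.le (hHc.sub hqc).abs.intervalIntegrable
            (hc.intervalIntegrable.const_mul _) fun u hu => ?_
          have e1 : HH A B y ρ X u - qf A B y ρ u = ((1 - u / X) ^ 2 - 1) * qf A B y ρ u := by unfold HH; ring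
          have e2 : |(1 - u / X) ^ 2 - 1| ≤ 2 * (u / X) := by
            have a1 : 0 ≤ u / X := div_nonneg hu.1 hX.le
            have a2 : u / X ≤ 1 := (div_le_one hX).2 hu.2
            rw [abs_le]
            constructor <;> nlinarith
          rw [e1, abs_mul]
          have e3 := (qf_le D y hρ hu.1).2
          have hu0 := hu.1
          calc |(1 - u / X) ^ 2 - 1| * |qf A B y ρ u| ≤ 2 * (u / X) * |qf A B y ρ u| := mul_le_mul_of_nonneg_right e2 (abs_nonneg _)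
            _ = 2 / (ρ * X) * (ρ * (u * |qf A B y ρ u|)) := by field_simp
            _ ≤ 2 / (ρ * X) * (2 * N * kk ρ u) := mul_le_mul_of_nonneg_left e3 (by positivity)
            _ = 4 * N / (ρ * X) * kk ρ u := by ring
      _ = 4 * N / (ρ * X) * ∫ u in (0:ℝ)..X, kk ρ u := intervalIntegral.integral_const_mul _ _
      _ ≤ 4 * N / (ρ * X) * 1 := mul_le_mul_of_nonneg_left (kk_int hρ hX.le) (by positivity)
      _ = _ := mul_one _
  rw [h2, abs_zero, zero_add] at h1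
  rw [h4]
  have h7 : |∑ p ∈ QX X, Real.log p / p * HH A B y ρ X (Real.log p) - ∫ u in (0:ℝ)..X, HH A B y ρ X u| ≤
      E * (4 * N / X + 2 * N * ρ * (1 + |y|)) := h1.trans (mul_le_mul_of_nonneg_left h3 hE.le)
  have e : ∑ p ∈ QX X, Real.log p / p * HH A B y ρ X (Real.log p) - ((∫ t in (0:ℝ)..X, qf A B y ρ t) + ∫ t in Ioi X, qf A B y ρ t) =
      (∑ p ∈ QX X, Real.log p / p * HH A B y ρ X (Real.log p) - ∫ u in (0:ℝ)..X, HH A B y ρ X u) +
        (((∫ u in (0:ℝ)..X, HH A B y ρ X u) - ∫ t in (0:ℝ)..X, qf A B y ρ t) - ∫ t in Ioi X, qf A B y ρ t) := by ring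
  rw [e]
  calc _ ≤ |∑ p ∈ QX X, Real.log p / p * HH A B y ρ X (Real.log p) - ∫ u in (0:ℝ)..X, HH A B y ρ X u| +
        (|(∫ u in (0:ℝ)..X, HH A B y ρ X u) - ∫ t in (0:ℝ)..X, qf A B y ρ t| + |∫ t in Ioi X, qf A B y ρ t|) :=
        (abs_add_le _ _).trans (add_le_add le_rfl (abs_sub _ _))
    _ ≤ E * (4 * N / X + 2 * N * ρ * (1 + |y|)) + (4 * N / (ρ * X) + 2 * N / (ρ * X)) := by gcongr
    _ ≤ (4 * E + 6) * N * (ρ * (1 + |y|) + 1 / X + 1 / (ρ * X)) := by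
        have a1 : 0 ≤ ρ * (1 + |y|) := by positivity
        have a2 : 0 ≤ 1 / X := by positivity
        have a3 : 0 ≤ 1 / (ρ * X) := by positivity
        have e1 : E * (4 * N / X + 2 * N * ρ * (1 + |y|)) + (4 * N / (ρ * X) + 2 * N / (ρ * X)) =
            4 * (E * N) * (1 / X) + 2 * (E * N) * (ρ * (1 + |y|)) + 6 * N * (1 / (ρ * X)) := by ring
        rw [e1]
        have hEN : 0 ≤ E * N := by positivity
        nlinarith [mul_nonneg hEN a1, mul_nonneg hEN a2, mul_nonneg hEN a3, mul_nonneg hN a1, mul_nonneg hN a2, mul_nonneg hN a3]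

end Pool.Agent.Helper44.TOL
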